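import Pool.Agent.Run7.h307.LR.Sup

/-!
# Quantum unique ergodicity off the diagonal, at close levels, for random conformal metrics

`(M, g)` is a closed surface with a continuous Riemannian metric, for instance of negative curvature.
For a continuous function `φ` and the metric `exp φ · g` let `0 = E 0 ≤ E 1 ≤ ...` be the eigenvalues
of the Laplacian, `u 0, u 1, ...` an orthonormal basis of eigenfunctions and `x k = area / (4 π) · E k`
the unfolded levels (mean spacing one). `φ` is random; its law `P` is the law of `ψ + t h n`, with `t`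
uniform on `[0, 1]` and independent of the random function `ψ`, for every `n` of a sequence of
continuous functions with `∑ ‖h n‖ < ∞` and a dense linear span (for instance
`φ = φ₀ + ∑ t n · h n` with independent uniform `t n` and any independent `φ₀`).

The starting file `RandomConformalMetrics` treats the diagonal matrix elements `∫ f u_j²`: they tend to
the mean value of `f` weakly in `L¹ (P)`. Here are the matrix elements off the diagonal and the
superpositions of eigenfunctions with close eigenvalues. Let `s_j → 0`, `f` continuous, `ε > 0`.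

* With probability tending to one as `j → ∞` **all** pairs `i ≤ j < k` with `x_k - x_i ≤ s_j`, for all
  bases of eigenfunctions, satisfy `|∫ f u_i u_k| < ε`.
* There is no interference: with probability tending to one, if the `m + 1` levels
  `x_j, ..., x_{j + m}` have a distance at most `s_j` then for all unit vectors `v = ∑ c_r u_{j + r}`
  the measure `v² dA` integrates `f` like the convex combination of the measures of the
  eigenfunctions: `|∫ f v² - ∑ c_r² ∫ f u_{j + r}²| < ε`.

Both hold at every level `j → ∞`, without an exceptional sequence of levels and without any average.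
The proof is the theorem on level repulsion (`MP_a825e8_mp/LevelRepulsion`): up to the probability
`V / (2 c) + o(1)` all pairs `i ≤ j < k` satisfy `∑ n, (∫ h n u_i u_k)² ≤ c (x_k - x_i)`.
-/

set_option autoImplicit false

open Set Filter Topology MeasureTheory
open scoped Real ContDiff ENNReal
open Pool.Agent.Y262.QE

noncomputable section

namespace Pool.Agent.Results.MP_07c750_an.CloseLevels

/-- `u 0, u 1, ...` is an orthonormal basis of `L² (μ)` which consists of eigenfunctions of the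
Laplacian of the surface `D` with the area `μ`; the eigenvalues `E 0 ≤ E 1 ≤ ...` are ordered -/
structure IsEigenbasis {M : Type} [MeasurableSpace M] (D : Data M) (μ : Measure M)
    (u : ℕ → M → ℝ) (E : ℕ → ℝ) : Prop where
  eig : ∀ j, D.IsEig μ (E j) (u j)
  mono : Monotone E
  orth : ∀ i j, ∫ x, u i x * u j x ∂μ = if i = j then 1 else 0
  total : ∀ f : M → ℝ, MemLp f 2 μ → (∀ j, ∫ x, f x * u j x ∂μ = 0) → f =ᵐ[μ] 0

/-- the surface with the metric `exp φ · g` -/
def surf {M : Type} [TopologicalSpace M] (D : Data M) (φ : C(M, ℝ)) : Data M :=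
  D.conf fun x => Real.exp (φ x)

/-- the area of the metric `exp φ · g` -/
def area {M : Type} [TopologicalSpace M] [MeasurableSpace M] (μ : Measure M) (φ : C(M, ℝ)) :
    Measure M :=
  wm μ fun x => Real.exp (φ x)

/-- `P` is the law of `ψ + t h`, where `ψ` is a random function and `t` is uniform on `[0, 1]` and
independent of `ψ` -/
def IsUniformAlong {M : Type} [TopologicalSpace M] [MeasurableSpace C(M, ℝ)]
    (P : Measure C(M, ℝ)) (h : C(M, ℝ)) : Prop :=
  ∃ P' : Measure C(M, ℝ), IsProbabilityMeasure P' ∧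
    P = (P'.prod (volume.restrict (Icc (0 : ℝ) 1))).map fun p => p.1 + p.2 • h

/-- the unfolded level of the eigenvalue `E`: area times eigenvalue divided by `4 π` -/
def level {M : Type} [TopologicalSpace M] [MeasurableSpace M] (μ : Measure M) (φ : C(M, ℝ))
    (E : ℝ) : ℝ :=
  (area μ φ).real univ / (4 * π) * E

/-- for some basis of eigenfunctions of the metric `exp φ · g` there are indices `i ≤ j < k` with
unfolded levels `x_k - x_i ≤ s` and `|∫ f u_i u_k| ≥ ε` -/
def Coupled {M : Type} [TopologicalSpace M] [MeasurableSpace M] (D : Data M) (μ : Measure M)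
    (f : C(M, ℝ)) (ε s : ℝ) (j : ℕ) (φ : C(M, ℝ)) : Prop :=
  ∃ (u : ℕ → M → ℝ) (E : ℕ → ℝ), IsEigenbasis (surf D φ) (area μ φ) u E ∧
    ∃ i k, i ≤ j ∧ j < k ∧ level μ φ (E k) - level μ φ (E i) ≤ s ∧
      ε ≤ |∫ x, f x * (u i x * u k x) ∂(area μ φ)|

/-- for some basis of eigenfunctions of the metric `exp φ · g` the unfolded levels satisfy
`x_{j + m} - x_j ≤ s`, and for some unit vector `v = ∑ r ≤ m, c_r u_{j + r}` the integral of `f v²`
differs by at least `ε` from `∑ c_r² ∫ f u_{j + r}²` -/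
def Interferes {M : Type} [TopologicalSpace M] [MeasurableSpace M] (D : Data M) (μ : Measure M)
    (f : C(M, ℝ)) (m : ℕ) (ε s : ℝ) (j : ℕ) (φ : C(M, ℝ)) : Prop :=
  ∃ (u : ℕ → M → ℝ) (E : ℕ → ℝ), IsEigenbasis (surf D φ) (area μ φ) u E ∧
    level μ φ (E (j + m)) - level μ φ (E j) ≤ s ∧
      ∃ c : ℕ → ℝ, ∑ r ∈ Finset.range (m + 1), c r ^ 2 = 1 ∧
        ε ≤ |∫ x, f x * (∑ r ∈ Finset.range (m + 1), c r * u (j + r) x) ^ 2 ∂(area μ φ) -
          ∑ r ∈ Finset.range (m + 1), c r ^ 2 * ∫ x, f x * u (j + r) x ^ 2 ∂(area μ φ)|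

theorem result (M : Type) [MetricSpace M] [CompactSpace M] [MeasurableSpace M] [BorelSpace M]
    [Nonempty M] [MeasurableSpace C(M, ℝ)] [BorelSpace C(M, ℝ)] (μ : Measure M) (D : Data M)
    (hD : D.IsSurf μ) (h : ℕ → C(M, ℝ)) (hs : Summable fun n => ‖h n‖)
    (hd : Dense (Submodule.span ℝ (Set.range h) : Set C(M, ℝ)))
    (P : Measure C(M, ℝ)) [IsProbabilityMeasure P] (hP : ∀ n, IsUniformAlong P (h n)) :
    -- the metrics `exp φ · g` are closed surfaces and have bases of eigenfunctions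
    (∀ φ : C(M, ℝ), (surf D φ).IsSurf (area μ φ) ∧
      ∃ u E, IsEigenbasis (surf D φ) (area μ φ) u E) ∧
    ∀ (f : C(M, ℝ)) (s : ℕ → ℝ), Tendsto s atTop (𝓝 0) → ∀ ε : ℝ, 0 < ε →
      -- matrix elements off the diagonal
      Tendsto (fun j : ℕ => P {φ : C(M, ℝ) | Coupled D μ f ε (s j) j φ}) atTop (𝓝 0) ∧
      -- superpositions
      ∀ m : ℕ, Tendsto (fun j : ℕ => P {φ : C(M, ℝ) | Interferes D μ f m ε (s j) j φ})
        atTop (𝓝 0) := by
  obtain ⟨hf, -⟩ := tFin M μ D hD
  have := hf
  obtain ⟨i, a, hSf, hi, ha⟩ := Pool.Agent.Y264.QR.tPackF M μ D hD inferInstance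
  obtain ⟨b, hB, hF, hA, hexp, -⟩ := Pool.Agent.Y264.QR.tFm M μ (Pool.Agent.Y264.QR.HF D μ) i a hSf
  have hW := Pool.Agent.Y264.QR.tWl M μ D hD inferInstance i a b hSf hi ha hB
  have : CompleteSpace (Pool.Agent.Y264.QR.HF D μ) :=
    (Submodule.isClosed_topologicalClosure _).completeSpace_coe
  have hex : ∀ φ, ∃ (e : ℕ → Pool.Agent.Y264.QR.HF D μ) (E : ℕ → ℝ), Eg a (b φ) e E := fun φ =>
    tSp (Pool.Agent.Y264.QR.HF D μ) a (b φ) (hF φ)
  choose P' hP1 hP2 using hP
  have hm : ∀ φ : C(M, ℝ), Measurable fun x => Real.exp (φ x) := fun φ =>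
    (Real.continuous_exp.comp φ.continuous).measurable
  have harea : ∀ φ : C(M, ℝ), (area μ φ).real univ = ∫ x, Real.exp (φ x) ∂μ := by
    intro φ
    have h5 : (area μ φ).real univ = ∫ x, (1 : ℝ) ∂(wm μ fun x => Real.exp (φ x)) := by
      simp [area]
    rw [h5, integral_wm μ _ (hm φ) fun x => (Real.exp_pos _).le]
    simp
  refine ⟨fun φ => ⟨(tConf M μ D hD _
    (Real.continuous_exp.comp φ.continuous) fun x => Real.exp_pos _).1, ?_⟩, ?_⟩
  · obtain ⟨u, E, h⟩ := Pool.Agent.Y264.QR.tEx M μ D hD inferInstance φ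
    exact ⟨u, E, h.eig, h.mono, h.orth, h.total⟩
  intro f s hs0 ε hε
  -- matrix elements
  have hel : ∀ (φ : C(M, ℝ)) (u : ℕ → M → ℝ) (e : ℕ → Pool.Agent.Y264.QR.HF D μ),
      (∀ j, (i (e j) : M → ℝ) =ᵐ[μ] u j) → ∀ l k, ∫ x, f x * (u l x * u k x) ∂(area μ φ) =
        Pool.Agent.Run7.h307.LR.wf i (f * Pool.Agent.Run7.h307.LR.cexp φ) (e l) (e k) := by
    intro φ u e he l k
    unfold area Pool.Agent.Run7.h307.LR.wf
    rw [integral_wm μ _ (hm φ) (fun x => (Real.exp_pos _).le)]
    refine integral_congr_ae ?_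
    filter_upwards [he l, he k] with x h1 h2
    rw [h1, h2]
    simp only [ContinuousMap.mul_apply, Pool.Agent.Run7.h307.LR.cexp_apply]
    ring
  have hsq : ∀ (φ : C(M, ℝ)) (u : ℕ → M → ℝ) (e : ℕ → Pool.Agent.Y264.QR.HF D μ),
      (∀ j, (i (e j) : M → ℝ) =ᵐ[μ] u j) → ∀ l, ∫ x, f x * u l x ^ 2 ∂(area μ φ) =
        Pool.Agent.Run7.h307.LR.wf i (f * Pool.Agent.Run7.h307.LR.cexp φ) (e l) (e l) := by
    intro φ u e he l
    rw [← hel φ u e he l l]
    refine integral_congr_ae (Eventually.of_forall fun x => ?_)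
    simp only
    ring
  have hsum : ∀ (φ : C(M, ℝ)) (u : ℕ → M → ℝ) (e : ℕ → Pool.Agent.Y264.QR.HF D μ),
      (∀ j, (i (e j) : M → ℝ) =ᵐ[μ] u j) → ∀ (c : ℕ → ℝ) (j m : ℕ),
      ∫ x, f x * (∑ r ∈ Finset.range (m + 1), c r * u (j + r) x) ^ 2 ∂(area μ φ) =
        ∑ r ∈ Finset.range (m + 1), ∑ q ∈ Finset.range (m + 1), c r * c q *
          Pool.Agent.Run7.h307.LR.wf i (f * Pool.Agent.Run7.h307.LR.cexp φ) (e (j + r))
            (e (j + q)) := by
    intro φ u e he c j m
    rw [← Pool.Agent.Run7.h307.LR.quad (f * Pool.Agent.Run7.h307.LR.cexp φ)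
      (Finset.range (m + 1)) c fun r => e (j + r)]
    unfold area
    rw [integral_wm μ _ (hm φ) (fun x => (Real.exp_pos _).le)]
    refine integral_congr_ae ?_
    filter_upwards [ae_all_iff.2 he] with x hx
    simp only [ContinuousMap.mul_apply, Pool.Agent.Run7.h307.LR.cexp_apply, hx]
    ring
  constructor
  · refine tendsto_of_tendsto_of_tendsto_of_le_of_le tendsto_const_nhds
      (Pool.Agent.Run7.h307.LR.off hSf hB hW hex h hs hd P P' hP2 f s hs0 hε)
      (fun _ => zero_le) fun j => measure_mono ?_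
    rintro φ ⟨u, E, hu, n, k, hn, hk, hx, hfe⟩
    obtain ⟨e, he1, he2⟩ := Pool.Agent.Y264.QR.tBr M μ D hD i a b hSf hi ha hB hF φ u E
      ⟨hu.eig, hu.mono, hu.orth, hu.total⟩
    refine ⟨e, E, he2, n, k, hn, hk, ?_, ?_⟩
    · rw [← harea]
      exact hx
    · rw [← hel φ u e he1]
      exact hfe
  · intro m
    refine tendsto_of_tendsto_of_tendsto_of_le_of_le tendsto_const_nhds
      (Pool.Agent.Run7.h307.LR.sup_off hSf hB hW hex h hs hd P P' hP2 f m s hs0 hε)
      (fun _ => zero_le) fun j => measure_mono ?_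
    rintro φ ⟨u, E, hu, hx, c, hc, hfe⟩
    obtain ⟨e, he1, he2⟩ := Pool.Agent.Y264.QR.tBr M μ D hD i a b hSf hi ha hB hF φ u E
      ⟨hu.eig, hu.mono, hu.orth, hu.total⟩
    refine ⟨e, E, he2, ?_, c, hc, ?_⟩
    · rw [← harea]
      exact hx
    · rw [hsum φ u e he1] at hfe
      simp only [hsq φ u e he1] at hfe
      exact hfe

end Pool.Agent.Results.MP_07c750_an.CloseLevels
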