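import Pool.Agent.Run7.h408.EF.All

/-!
# Energy tensors of eigenfunctions in families of metrics on a closed surface

Let `g_t` be a family of Riemannian metrics on a closed surface `M` which is differentiable in `t`, for
instance a family of metrics of constant negative curvature (a path in Teichmüller space), and let
`h = dg / dt`. For every `t` let `u 0, u 1, ...` be an arbitrary orthonormal basis of eigenfunctions of
the Laplacian of `g_t` with the eigenvalues `lam 0 ≤ lam 1 ≤ ...`. Then the normalized pairing of `h`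
with the stress-energy tensor of `u j`,

`X j = ∫ (1/2) (tr h) (u j)² dA + (lam j)⁻¹ ∫ (h (∇u j, ∇u j) - (1/2) (tr h) |∇u j|²) dA`,

tends to `Y = (∫ (1/2) (tr h) dA) / Area = d (log Area) / dt` as `j → ∞`, weakly in `L¹` with respect to
`t`, and along every fixed sequence of indices, for almost every `t`, no limit different from `Y` is
possible. There is no exceptional sequence of eigenvalues. Moreover `- X j` is the logarithmic derivative
of the eigenvalue `lam j` for almost every `t`, for all `j` and every choice of the bases.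

* For conformal families, `h = f g`, one has `X j = ∫ f (u j)² dA` and `Y` is the mean value of `f`: this
  is the equidistribution of `(u j)² dA` in the mean.
* For families of metrics with the same area, for instance of hyperbolic metrics (Gauss-Bonnet), where no
  conformal deformation is possible, the theorem says that `X j → 0`: if `h` is trace free, for instance
  the real part of a holomorphic quadratic differential (a harmonic representative of the direction in
  Teichmüller space), then `(lam j)⁻¹ ∫ h (∇u j, ∇u j) dA → 0`. This is the prediction of quantum unique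
  ergodicity for the microlocal lifts of the eigenfunctions: the energy is isotropic.

The families are parametrized by the orbits of a flow `θ` on a set `Ω`, for instance `Ω = ℝ` and the
translations; then one has the same result for random metrics: for every probability measure `P` on `Ω`
which is quasi-invariant under `θ`, weakly in `L¹ (P)` and `P`-almost surely.

Idea of the proof. The eigenvalues are Lipschitz functions of `t`, and at a point where all branches are
differentiable the derivative of the quadratic forms is a multiple of the form of the area on every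
eigenspace. By Weyl's law for continuous metrics the functions `log lam j - log (j + 1)` tend to
`log (4 π / Area)` for every `t`, so the integrals of `X j` over all intervals converge.

The spectral theory and Weyl's law are those of the projects QE and QR (see `Pool/Agent/Y262/QE/All.lean`
and `Pool/Agent/Y264/QR/All.lean`). New parts: helper270 (comparison of metrics, measurability), helper305
(gradients), helper354 (eigenvectors, one real variable), helper437 (perturbation of forms and integrals),
helper579, helper586 (tensor fields, integrals), helper722 (forms), helper888 (linear algebra) and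
helper408 (statements, upper bounds, families in every direction, areas, assembly), see
`Pool/Agent/Run7/h408/EF/Stm.lean` and `Pool/Agent/Run7/h408/EF/All.lean`.
-/

set_option autoImplicit false

open Set Filter Topology MeasureTheory
open Pool.Agent.Y262.QE

noncomputable section

namespace Pool.Agent.Results.MP_07c750_an.EnergyTensors

section defs

variable {M : Type}

/-- a Riemannian metric on the surface with the charts of `D`, given by orthonormal coframes in the
charts: it is the metric `v ↦ ‖A i z v‖ ^ 2` in the chart `i` at the point with the coordinate `z` -/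
abbrev Metr (D : Data M) : Type := Fin D.N → ℂ → ℂ →L[ℝ] ℂ

/-- the surface with the charts of `D` and the metric `A` -/
def surf (D : Data M) (A : Metr D) : Data M where
  N := D.N
  U := D.U
  φ := D.φ
  ψ := D.ψ
  A := A

/-- a tensor field: a bilinear form in each point of each chart -/
abbrev Tensor (D : Data M) : Type := Fin D.N → ℂ → ℂ →L[ℝ] ℂ →L[ℝ] ℝ

/-- the value of the tensor field `h` on the tangent vectors with the coordinates `v`, `w` in the
orthonormal frame of the metric `A` at `x`, in the first chart which contains `x` -/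
def val (D : Data M) (A : Metr D) (h : Tensor D) (v w : ℂ) (x : M) : ℝ :=
  ∑ i, (D.pc i).indicator (fun x => h i (D.φ i x) ((A i (D.φ i x)).inverse v)
    ((A i (D.φ i x)).inverse w)) x

/-- the trace of the tensor field with respect to the metric -/
def tr (D : Data M) (A : Metr D) (h : Tensor D) (x : M) : ℝ :=
  val D A h 1 1 x + val D A h Complex.I Complex.I x

/-- `u 0, u 1, ...` is an orthonormal basis of `L² (μ)` which consists of eigenfunctions of the
Laplacian of the surface `D` with the area `μ`; the eigenvalues `lam 0 ≤ lam 1 ≤ ...` are ordered -/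
structure IsEigenbasis [MeasurableSpace M] (D : Data M) (μ : Measure M)
    (u : ℕ → M → ℝ) (lam : ℕ → ℝ) : Prop where
  eig : ∀ j, D.IsEig μ (lam j) (u j)
  mono : Monotone lam
  orth : ∀ i j, ∫ x, u i x * u j x ∂μ = if i = j then 1 else 0
  total : ∀ f : M → ℝ, MemLp f 2 μ → (∀ j, ∫ x, f x * u j x ∂μ = 0) → f =ᵐ[μ] 0

/-- `W` is the gradient of the weak eigenfunction `u` (in the orthonormal frames): the limit in `L²` of
gradients of `C¹` functions which tend to `u` in `L²`, with `∫ ⟨W, ∇G⟩ = lam ∫ u G` for all `G` in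
`C¹` -/
structure IsGradient [MeasurableSpace M] (D : Data M) (μ : Measure M) (lam : ℝ) (u : M → ℝ)
    (W : M → ℂ) : Prop where
  mem : MemLp W 2 μ
  ex : ∃ F : ℕ → M → ℝ, (∀ k, D.C1 (F k)) ∧
    Tendsto (fun k => ∫ x, (F k x - u x) ^ 2 ∂μ) atTop (𝓝 0) ∧
    Tendsto (fun k => ∫ x, ‖D.gr (F k) x - W x‖ ^ 2 ∂μ) atTop (𝓝 0)
  eq : ∀ G : M → ℝ, D.C1 G → ∫ x, inner ℝ (W x) (D.gr G x) ∂μ = lam * ∫ x, u x * G x ∂μ

/-- A family of Riemannian metrics `A o`, `o ∈ Ω`, on the surface with the charts of `D`, which is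
differentiable along the orbits of the flow `θ`: `μ o` is the area of the metric `A o`, and the
continuous symmetric tensor field `h o` is the derivative of the metric `A (θ t o)` at `t = 0`, uniformly
on the surface. The metrics change by the factor `exp (2 K |s|)` at most in the time `s`. -/
structure IsFamily {Ω : Type} [TopologicalSpace M] [MeasurableSpace M] (D : Data M)
    (θ : ℝ → Ω → Ω) (A : Ω → Metr D) (μ : Ω → Measure M) (h : Ω → Tensor D) (K : ℝ) : Prop where
  zero : ∀ o, θ 0 o = o
  add : ∀ s t o, θ (s + t) o = θ s (θ t o)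
  pos : 0 ≤ K
  isSurf : ∀ o, (surf D (A o)).IsSurf (μ o)
  lip : ∀ o s i, ∀ z ∈ D.T i, ∀ v, ‖A (θ s o) i z v‖ ≤ Real.exp (K * |s|) * ‖A o i z v‖
  symm : ∀ o i z v w, h o i z v w = h o i z w v
  cont : ∀ o i, ContinuousOn (h o i) (D.T i)
  deriv : ∀ o, ∀ ε : ℝ, 0 < ε → ∃ δ : ℝ, 0 < δ ∧ ∀ t : ℝ, |t| < δ → ∀ i, ∀ z ∈ D.T i, ∀ v,
    |‖A (θ t o) i z v‖ ^ 2 - ‖A o i z v‖ ^ 2 - t * h o i z v v| ≤ ε * |t| * ‖A o i z v‖ ^ 2

/-- `h` is a symmetric continuous tensor field on the surface, bounded by `K` times the metric `A` -/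
structure IsTensor (D : Data M) (A : Metr D) (h : Tensor D) (K : ℝ) : Prop where
  symm : ∀ i z v w, h i z v w = h i z w v
  cont : ∀ i, ContinuousOn (h i) (D.T i)
  bdd : ∀ i, ∀ z ∈ D.T i, ∀ v, |h i z v v| ≤ K * ‖A i z v‖ ^ 2
  charts : ∀ i j, ∀ x ∈ D.U i, x ∈ D.U j → ∀ v,
    h j (D.φ j x) (fderiv ℝ (fun z => D.φ j (D.ψ i z)) (D.φ i x) v)
      (fderiv ℝ (fun z => D.φ j (D.ψ i z)) (D.φ i x) v) = h i (D.φ i x) v v

/-- the pairing of the tensor field `h` with the stress-energy tensor of the eigenfunction `u` with the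
gradient `W`, divided by the eigenvalue `lam` -/
def pairing [MeasurableSpace M] (D : Data M) (A : Metr D) (μ : Measure M) (h : Tensor D)
    (lam : ℝ) (u : M → ℝ) (W : M → ℂ) : ℝ :=
  (∫ x, 1 / 2 * tr D A h x * (u x) ^ 2 ∂μ) +
    lam⁻¹ * ∫ x, (val D A h (W x) (W x) x - 1 / 2 * tr D A h x * ‖W x‖ ^ 2) ∂μ

/-- half of the mean value of the trace of `h`: the logarithmic derivative of the area -/
def rate [MeasurableSpace M] (D : Data M) (A : Metr D) (μ : Measure M) (h : Tensor D) : ℝ :=
  (∫ x, 1 / 2 * tr D A h x ∂μ) / μ.real univ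

end defs

theorem result (M : Type) [MetricSpace M] [CompactSpace M] [MeasurableSpace M] [BorelSpace M]
    [Nonempty M] (D : Data M) :
    -- there is a family through every metric, in every direction
    (∀ (A₀ : Metr D) (μ₀ : Measure M) (h₀ : Tensor D) (K₀ : ℝ), (surf D A₀).IsSurf μ₀ → 0 ≤ K₀ →
      IsTensor D A₀ h₀ K₀ → ∃ (A : ℝ → Metr D) (μ : ℝ → Measure M) (h : ℝ → Tensor D) (K : ℝ),
        IsFamily D (fun s t : ℝ => s + t) A μ h K ∧ A 0 = A₀ ∧ μ 0 = μ₀ ∧ h 0 = h₀) ∧
    ∀ (Ω : Type) (θ : ℝ → Ω → Ω) (A : Ω → Metr D) (μ : Ω → Measure M) (h : Ω → Tensor D) (K : ℝ),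
      IsFamily D θ A μ h K →
    -- the bases exist
    (∀ o, ∃ (u : ℕ → M → ℝ) (lam : ℕ → ℝ) (W : ℕ → M → ℂ),
      IsEigenbasis (surf D (A o)) (μ o) u lam ∧
        ∀ j, IsGradient (surf D (A o)) (μ o) (lam j) (u j) (W j)) ∧
    ∀ (u : Ω → ℕ → M → ℝ) (lam : Ω → ℕ → ℝ) (W : Ω → ℕ → M → ℂ),
      (∀ o, IsEigenbasis (surf D (A o)) (μ o) (u o) (lam o)) →
      (∀ o j, IsGradient (surf D (A o)) (μ o) (lam o j) (u o j) (W o j)) →
    ∀ (X : ℕ → Ω → ℝ) (Y : Ω → ℝ),
      (∀ j o, X j o = pairing D (A o) (μ o) (h o) (lam o j) (u o j) (W o j)) →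
      (∀ o, Y o = rate D (A o) (μ o) (h o)) →
    -- one orbit
    (∀ o,
      (∀ᵐ t : ℝ, ∀ j, HasDerivAt (fun s => lam (θ s o) j) (-(X j (θ t o) * lam (θ t o) j)) t) ∧
      (∀ t : ℝ, HasDerivAt (fun s => Real.log ((μ (θ s o)).real univ)) (Y (θ t o)) t) ∧
      (∀ χ : ℝ → ℝ, Integrable χ volume →
        Tendsto (fun j => ∫ t, χ t * X j (θ t o)) atTop (𝓝 (∫ t, χ t * Y (θ t o)))) ∧
      ∀ J : ℕ → ℕ, Tendsto J atTop atTop → ∀ᵐ t : ℝ, ∀ L : ℝ,
        Tendsto (fun k => X (J k) (θ t o)) atTop (𝓝 L) → L = Y (θ t o)) ∧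
    -- random metrics
    ∀ [MeasurableSpace Ω] (P : Measure Ω) [IsProbabilityMeasure P],
      (Measurable fun p : ℝ × Ω => θ p.1 p.2) → (∀ t, P.map (θ t) ≪ P) →
      (∀ j, Measurable fun o => lam o j) → (Measurable fun o => (μ o).real univ) →
      (∃ J₀ : ℕ, ∀ j, J₀ ≤ j → AEStronglyMeasurable (X j) P) ∧ Measurable Y ∧
      (∀ χ : Ω → ℝ, Integrable χ P →
        Tendsto (fun j => ∫ o, χ o * X j o ∂P) atTop (𝓝 (∫ o, χ o * Y o ∂P))) ∧
      ∀ J : ℕ → ℕ, Tendsto J atTop atTop → ∀ᵐ o ∂P, ∀ L : ℝ,
        Tendsto (fun k => X (J k) o) atTop (𝓝 L) → L = Y o := by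
  refine ⟨fun A₀ μ₀ h₀ K₀ hS hK hT => ?_, fun Ω θ A μ h K hF => ⟨fun o => ?_, ?_⟩⟩
  · obtain ⟨A, μ, h, K, hF, h1, h2, h3⟩ := Pool.Agent.Run7.h408.EF.tFx M μ₀ D A₀ hS h₀ K₀
      ⟨hT.symm, hT.cont, hT.bdd⟩ hK hT.charts
    exact ⟨A, μ, h, K, ⟨hF.zero, hF.add, hF.pos, hF.surf, hF.lip, hF.symm, hF.cont, hF.der⟩, h1,
      h2, h3⟩
  · obtain ⟨u, lam, W, h1, h2⟩ := Pool.Agent.Run7.h408.EF.ex Pool.Agent.Y264.QR.tEx
      Pool.Agent.Run7.h408.EF.tGx (μ o) (surf D (A o)) (hF.isSurf o)
    exact ⟨u, lam, W, ⟨h1.eig, h1.mono, h1.orth, h1.total⟩, fun j =>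
      ⟨(h2 j).mem, (h2 j).ex, (h2 j).eq⟩⟩
  · intro u lam W hu hW X Y hX hY
    exact Pool.Agent.Run7.h408.EF.main
      ⟨hF.zero, hF.add, hF.pos, hF.isSurf, hF.lip, hF.symm, hF.cont, hF.deriv⟩ u lam W
      (fun o => ⟨(hu o).eig, (hu o).mono, (hu o).orth, (hu o).total⟩)
      (fun o j => ⟨(hW o j).mem, (hW o j).ex, (hW o j).eq⟩) X Y hX hY

end Pool.Agent.Results.MP_07c750_an.EnergyTensors
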