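import Pool.Agent.Results.MP_07c750_an.RandomConformalMetrics
import Pool.Agent.Run7.h986.QS.Main

/-!
# Random conformal metrics: equidistribution on average along every sparse sequence of eigenvalues

Let `(M, g)` be a closed surface with a continuous Riemannian metric (for instance a smooth metric
of negative curvature). For a continuous function `φ` on `M` consider the metric `exp φ · g` and an
orthonormal basis `u φ 0, u φ 1, ...` of `L²` which consists of eigenfunctions of its Laplacian,
ordered by the eigenvalue; the choice of the bases is arbitrary. Let `P` be a Borel probability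
measure on `C(M)` which is quasi-invariant under the translations by the multiples of the functions
of a set with dense linear span (for instance a nondegenerate Gaussian measure and its
Cameron-Martin space).

* There is a nondecreasing function `Φ` such that for EVERY sequence `J` of indices with
  `Φ 0 ≤ J 0` and `Φ (J k) ≤ J (k + 1)` (every sufficiently sparse sequence; all its subsequences
  are again of this kind) and for `P`-almost every metric the measures
  `(1 / n) ∑_{k < n} (u φ (J k))² dA_φ` converge weakly to the uniform measure: a local Weyl law
  along the sequence `J`.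
* For EVERY sequence `J` of indices which tends to infinity and for `P`-almost every metric the
  uniform measure lies in the weak-* closed convex hull of the quantum limits of the sequence
  `u φ (J k)`. In particular no deterministic sequence of eigenfunctions can concentrate on, or
  avoid, a fixed set with regular boundary with positive probability.

Only the weak convergence in the mean of the starting theorem RandomConformalMetrics is used from
spectral theory: the masses are asymptotically uncorrelated with every bounded function of the metric,
in particular with the masses of the previous members of the sequence.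
-/

set_option autoImplicit false

open Set Filter Topology MeasureTheory
open Pool.Agent.Y262.QE
open Pool.Agent.Results.MP_07c750_an.RandomConformalMetrics (IsEigenbasis surf area)

noncomputable section

namespace Pool.Agent.Results.MP_07c750_an.SparseSequences

/-- the functional `f ↦ ∫ f v² dA` on `C(M)`, that is the measure `v² dA` -/
def mass {M : Type} [TopologicalSpace M] [MeasurableSpace M] (A : Measure M) (v : M → ℝ)
    (f : C(M, ℝ)) : ℝ :=
  ∫ x, f x * (v x) ^ 2 ∂A

/-- the mean value of `f`, that is the uniform probability measure -/
def mean {M : Type} [TopologicalSpace M] [MeasurableSpace M] (A : Measure M) (f : C(M, ℝ)) : ℝ :=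
  (∫ x, f x ∂A) / A.real univ

/-- `L` is a quantum limit of the sequence `v`: a limit point of the functionals `f ↦ ∫ f (v k)² dA`
for pointwise convergence on `C(M)`, that is for weak-* convergence of measures -/
def IsQuantumLimit {M : Type} [TopologicalSpace M] [MeasurableSpace M] (A : Measure M)
    (v : ℕ → M → ℝ) (L : C(M, ℝ) → ℝ) : Prop :=
  MapClusterPt L atTop fun k => mass A (v k)

theorem result (M : Type) [MetricSpace M] [CompactSpace M] [MeasurableSpace M] [BorelSpace M]
    [Nonempty M] (μ : Measure M) (D : Data M) (hD : D.IsSurf μ)
    [MeasurableSpace C(M, ℝ)] [BorelSpace C(M, ℝ)] (P : Measure C(M, ℝ)) [IsProbabilityMeasure P]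
    (S : Set C(M, ℝ)) (hS : Dense (Submodule.span ℝ S : Set C(M, ℝ)))
    (hP : ∀ h ∈ S, ∀ t : ℝ, P.map (fun φ => φ + t • h) ≪ P)
    (u : C(M, ℝ) → ℕ → M → ℝ) (lam : C(M, ℝ) → ℕ → ℝ)
    (hu : ∀ φ, IsEigenbasis (surf D φ) (area μ φ) (u φ) (lam φ)) :
    -- sparse sequences
    (∃ Φ : ℕ → ℕ, Monotone Φ ∧
      ∀ J : ℕ → ℕ, Φ 0 ≤ J 0 → (∀ k, Φ (J k) ≤ J (k + 1)) → StrictMono J ∧
        ∀ᵐ φ ∂P, ∀ f : C(M, ℝ),
          Tendsto (fun n : ℕ => (∑ k ∈ Finset.range n, mass (area μ φ) (u φ (J k)) f) / n) atTop
            (𝓝 (mean (area μ φ) f))) ∧
    -- every sequence
    ∀ J : ℕ → ℕ, Tendsto J atTop atTop → ∀ᵐ φ ∂P,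
      mean (area μ φ) ∈ closure (convexHull ℝ
        {L : C(M, ℝ) → ℝ | IsQuantumLimit (area μ φ) (fun k => u φ (J k)) L}) :=
  Pool.Agent.Run7.h986.QS.main M μ D hD P S hS hP u lam
    fun φ => ⟨(hu φ).eig, (hu φ).mono, (hu φ).orth, (hu φ).total⟩

end Pool.Agent.Results.MP_07c750_an.SparseSequences
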